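import Pool.Agent.Helper53.PT.GoalsA

/-! # MP_705522_gt, project (T), packet PT-DER -/

namespace Pool.Agent.Helper42.PT

open MeasureTheory Set Filter Topology
open Pool.Agent.Helper53.PT

theorem one_sub_prod_le {ι : Type*} (s : Finset ι) (f : ι → ℝ) (h : ∀ i ∈ s, |f i| ≤ 1) :
    1 - ∏ i ∈ s, f i ≤ ∑ i ∈ s, (1 - f i) := by
  classical
  induction s using Finset.induction_on with
  | empty => simp
  | insert a s ha ih =>
    rw [Finset.prod_insert ha, Finset.sum_insert ha]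
    have h1 := ih fun i hi => h i (Finset.mem_insert_of_mem hi)
    have h2 := h a (Finset.mem_insert_self a s)
    have h3 : |∏ i ∈ s, f i| ≤ 1 := by
      rw [Finset.abs_prod]
      exact Finset.prod_le_one (fun _ _ => abs_nonneg _) fun i hi => h i (Finset.mem_insert_of_mem hi)
    rw [abs_le] at h2 h3
    nlinarith [mul_nonneg (by linarith : (0:ℝ) ≤ 1 - f a) (by linarith : (0:ℝ) ≤ 1 - ∏ i ∈ s, f i)]

theorem split_prod {n : ℕ} {i j : Fin n} (hij : i ≠ j) (f : Fin n → ℝ) :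
    ∏ l, f l = f i * (f j * ∏ l ∈ (Finset.univ.erase i).erase j, f l) := by
  rw [Finset.mul_prod_erase _ _ (Finset.mem_erase.2 ⟨hij.symm, Finset.mem_univ j⟩),
    Finset.mul_prod_erase _ _ (Finset.mem_univ i)]

theorem split_sum {n : ℕ} {i j : Fin n} (hij : i ≠ j) (f : Fin n → ℝ) :
    ∑ l, f l = f i + (f j + ∑ l ∈ (Finset.univ.erase i).erase j, f l) := by
  rw [Finset.add_sum_erase _ _ (Finset.mem_erase.2 ⟨hij.symm, Finset.mem_univ j⟩),
    Finset.add_sum_erase _ _ (Finset.mem_univ i)]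

/-- the path -/
def ts {n : ℕ} (t : Fin n → ℝ) (i j : Fin n) (s : ℝ) : Fin n → ℝ :=
  fun l => if l = i then t i - s else if l = j then t j + s else t l

theorem ts_rest {n : ℕ} (t : Fin n → ℝ) (i j : Fin n) (s : ℝ) {l : Fin n}
    (h : l ∈ (Finset.univ.erase i).erase j) : ts t i j s l = t l := by
  simp only [Finset.mem_erase, Finset.mem_univ, and_true] at h
  unfold ts
  rw [if_neg h.2, if_neg h.1]

theorem ts_i {n : ℕ} (t : Fin n → ℝ) (i j : Fin n) (s : ℝ) : ts t i j s i = t i - s := by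
  unfold ts; rw [if_pos rfl]

theorem ts_j {n : ℕ} (t : Fin n → ℝ) {i j : Fin n} (hij : i ≠ j) (s : ℝ) :
    ts t i j s j = t j + s := by
  unfold ts; rw [if_neg hij.symm, if_pos rfl]

theorem ts_zero {n : ℕ} (t : Fin n → ℝ) {i j : Fin n} (_hij : i ≠ j) : ts t i j 0 = t := by
  funext l
  unfold ts
  split_ifs with h1 h2
  · rw [h1, sub_zero]
  · rw [h2, add_zero]
  · rfl

theorem ts_Sx {n : ℕ} {t : Fin n → ℝ} (ht : Sx t) {i j : Fin n} (hij : i ≠ j) {s : ℝ}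
    (hs : 0 ≤ s) (hs' : s ≤ t i) : Sx (ts t i j s) := by
  refine ⟨fun l => ?_, ?_⟩
  · unfold ts
    split_ifs
    · linarith
    · have := ht.1 j; linarith
    · exact ht.1 l
  · rw [split_sum hij, ts_i, ts_j t hij, Finset.sum_congr rfl fun l hl => ts_rest t i j s hl]
    have := ht.2
    rw [split_sum hij] at this
    linarith

section

variable {θ : ℝ} (hc0 : Continuous (f0 θ)) (hc1 : Continuous (f1 θ))
  (hb : ∀ x, 0 ≤ x → |f0 θ x| ≤ 1 ∧ 1 - x / 2 ≤ f0 θ x ∧ |f1 θ x| ≤ 1)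

include hc0 in
theorem PP_cont {n : ℕ} (t : Fin n → ℝ) : Continuous (PP θ t) := by
  unfold PP
  exact continuous_finsetProd _ fun i _ => hc0.comp (by fun_prop)

include hb in
theorem PP_abs {n : ℕ} {t : Fin n → ℝ} (ht : ∀ i, 0 ≤ t i) (ξ : ℝ) : |PP θ t ξ| ≤ 1 := by
  unfold PP
  rw [Finset.abs_prod]
  exact Finset.prod_le_one (fun _ _ => abs_nonneg _) fun i _ =>
    (hb _ (mul_nonneg (ht i) (sq_nonneg ξ))).1

include hb in
theorem PP_low {n : ℕ} {t : Fin n → ℝ} (ht : Sx t) (ξ : ℝ) : 1 - PP θ t ξ ≤ ξ ^ 2 / 2 := by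
  unfold PP
  refine (one_sub_prod_le _ _ fun i _ => (hb _ (mul_nonneg (ht.1 i) (sq_nonneg ξ))).1).trans ?_
  have h1 : ∑ i, (1 - f0 θ (t i * ξ ^ 2)) ≤ ∑ i, t i * (ξ ^ 2 / 2) := by
    refine Finset.sum_le_sum fun i _ => ?_
    have := (hb _ (mul_nonneg (ht.1 i) (sq_nonneg ξ))).2.1
    linarith
  rw [← Finset.sum_mul, ht.2, one_mul] at h1
  exact h1

include hb in
theorem G_bd {n : ℕ} {t : Fin n → ℝ} (ht : Sx t) {ξ : ℝ} (hξ : 0 < ξ) :
    ‖(1 - PP θ t ξ) / ξ ^ 2‖ ≤ 5 / 2 * (1 + ξ ^ 2)⁻¹ := by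
  have h1 := PP_abs hb ht.1 ξ
  have h2 := PP_low hb ht ξ
  rw [abs_le] at h1
  have hx : 0 < ξ ^ 2 := by positivity
  rw [Real.norm_eq_abs, abs_of_nonneg (div_nonneg (by linarith) hx.le), ← div_eq_mul_inv,
    div_le_div_iff₀ hx (by positivity)]
  rcases le_or_gt (ξ ^ 2) 4 with h | h
  · nlinarith [mul_nonneg (by linarith : (0:ℝ) ≤ ξ ^ 2 / 2 - (1 - PP θ t ξ))
      (by positivity : (0:ℝ) ≤ 1 + ξ ^ 2)]
  · nlinarith [mul_nonneg (by linarith : (0:ℝ) ≤ 2 - (1 - PP θ t ξ))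
      (by positivity : (0:ℝ) ≤ 1 + ξ ^ 2)]

include hc0 hb in
theorem G_int {n : ℕ} {t : Fin n → ℝ} (ht : Sx t) :
    IntegrableOn (fun ξ => (1 - PP θ t ξ) / ξ ^ 2) (Ioi 0) := by
  refine Integrable.mono' ((integrable_inv_one_add_sq.const_mul (5 / 2)).integrableOn) ?_ ?_
  · refine (ContinuousOn.aestronglyMeasurable ?_ measurableSet_Ioi)
    refine ContinuousOn.div (continuous_const.sub (PP_cont hc0 t)).continuousOn (by fun_prop) ?_
    intro ξ hξ
    exact pow_ne_zero 2 (ne_of_gt hξ)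
  · rw [ae_restrict_iff' measurableSet_Ioi]
    exact Eventually.of_forall fun ξ hξ => G_bd hb ht hξ

include hc0 hb in
theorem exists_min {n : ℕ} (hn : 0 < n) :
    ∃ t : Fin n → ℝ, Sx t ∧ ∀ s : Fin n → ℝ, Sx s → G θ t ≤ G θ s := by
  have hK : IsCompact (stdSimplex ℝ (Fin n)) := isCompact_stdSimplex ℝ (Fin n)
  have hne : (stdSimplex ℝ (Fin n)).Nonempty := by
    exact ⟨Pi.single ⟨0, hn⟩ 1, single_mem_stdSimplex ℝ _⟩
  have hcG : ContinuousOn (fun t : Fin n → ℝ => G θ t) (stdSimplex ℝ (Fin n)) := by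
    unfold G
    refine continuousOn_of_dominated (bound := fun ξ => 5 / 2 * (1 + ξ ^ 2)⁻¹) ?_ ?_
      ((integrable_inv_one_add_sq.const_mul (5 / 2)).integrableOn) ?_
    · intro t ht
      exact (G_int hc0 hb (t := t) ht).aestronglyMeasurable
    · intro t ht
      rw [ae_restrict_iff' measurableSet_Ioi]
      exact Eventually.of_forall fun ξ hξ => G_bd hb (t := t) ht hξ
    · refine Eventually.of_forall fun ξ => ?_
      refine Continuous.continuousOn ?_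
      unfold PP
      refine Continuous.div_const ?_ _
      refine continuous_const.sub (continuous_finsetProd _ fun i _ => hc0.comp (by fun_prop))
  obtain ⟨t, ht, hmin⟩ := hK.exists_isMinOn hne hcG
  exact ⟨t, ht, fun s hs => hmin hs⟩

/-- the integrand of `K` along the path -/
noncomputable def kk (θ : ℝ) {n : ℕ} (t : Fin n → ℝ) (i j : Fin n) (s ξ : ℝ) : ℝ :=
  (f1 θ ((t i - s) * ξ ^ 2) * f0 θ ((t j + s) * ξ ^ 2) -
    f0 θ ((t i - s) * ξ ^ 2) * f1 θ ((t j + s) * ξ ^ 2)) *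
      ∏ l ∈ (Finset.univ.erase i).erase j, f0 θ (t l * ξ ^ 2)

theorem PP_ts {n : ℕ} (t : Fin n → ℝ) {i j : Fin n} (hij : i ≠ j) (s ξ : ℝ) :
    PP θ (ts t i j s) ξ = f0 θ ((t i - s) * ξ ^ 2) * (f0 θ ((t j + s) * ξ ^ 2) *
      ∏ l ∈ (Finset.univ.erase i).erase j, f0 θ (t l * ξ ^ 2)) := by
  unfold PP
  rw [split_prod hij, ts_i, ts_j t hij]
  congr 2
  exact Finset.prod_congr rfl fun l hl => by rw [ts_rest t i j s hl]

theorem PP_deriv (hd : ∀ x, HasDerivAt (f0 θ) (-(f1 θ x) / 2) x) {n : ℕ} (t : Fin n → ℝ)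
    {i j : Fin n} (hij : i ≠ j) (s ξ : ℝ) :
    HasDerivAt (fun s => PP θ (ts t i j s) ξ) (ξ ^ 2 / 2 * kk θ t i j s ξ) s := by
  simp only [PP_ts t hij]
  have h1 : HasDerivAt (fun s => f0 θ ((t i - s) * ξ ^ 2))
      (-(f1 θ ((t i - s) * ξ ^ 2)) / 2 * (-1 * ξ ^ 2)) s :=
    (hd _).comp s (((hasDerivAt_id s).const_sub (t i)).mul_const (ξ ^ 2))
  have h2 : HasDerivAt (fun s => f0 θ ((t j + s) * ξ ^ 2))
      (-(f1 θ ((t j + s) * ξ ^ 2)) / 2 * (1 * ξ ^ 2)) s :=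
    (hd _).comp s (((hasDerivAt_id s).const_add (t j)).mul_const (ξ ^ 2))
  have h3 := h1.mul (h2.mul_const (∏ l ∈ (Finset.univ.erase i).erase j, f0 θ (t l * ξ ^ 2)))
  refine h3.congr_deriv ?_
  unfold kk
  ring

end

/-- the bound -/
theorem kk_bd {θ : ℝ} (h1 : 1 / 4 ≤ θ) (h2 : θ < 1 / 2) (hDec : Dec)
    (hb : ∀ x, 0 ≤ x → |f0 θ x| ≤ 1 ∧ 1 - x / 2 ≤ f0 θ x ∧ |f1 θ x| ≤ 1) {n : ℕ}
    {t : Fin n → ℝ} (ht : Sx t) {i j : Fin n} (hi : 0 < t i) :
    ∃ B : ℝ, ∀ s ∈ Icc 0 (t i / 2), ∀ ξ : ℝ, 0 < ξ →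
      ‖kk θ t i j s ξ‖ ≤ B * (1 + ‖ξ‖ ^ 2) ^ (-(1 / θ - 1) / 2) := by
  obtain ⟨C, hC⟩ := hDec θ h1 h2
  have hθ : 0 < θ := by linarith
  have hr : 1 < 1 / θ - 1 := by
    have : 2 < 1 / θ := by rw [lt_div_iff₀ hθ]; linarith
    linarith
  set r := 1 / θ - 1 with hrd
  have hC0 : 0 ≤ C := by
    have := (hC 1 one_pos).1
    rw [Real.one_rpow, mul_one] at this
    exact (abs_nonneg _).trans this
  set C' : ℝ := 2 * C * (t i / 2) ^ (-r / 2) with hC'
  have hC'0 : 0 ≤ C' := by positivity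
  refine ⟨2 ^ (r / 2) * (2 + C'), fun s hs ξ hξ => ?_⟩
  have ha0 : 0 ≤ (t i - s) * ξ ^ 2 := mul_nonneg (by linarith [hs.2]) (sq_nonneg ξ)
  have hb0 : 0 ≤ (t j + s) * ξ ^ 2 := mul_nonneg (by linarith [hs.1, ht.1 j]) (sq_nonneg ξ)
  obtain ⟨a1, -, a2⟩ := hb _ ha0
  obtain ⟨b1, -, b2⟩ := hb _ hb0
  have hR : |∏ l ∈ (Finset.univ.erase i).erase j, f0 θ (t l * ξ ^ 2)| ≤ 1 := by
    rw [Finset.abs_prod]
    exact Finset.prod_le_one (fun _ _ => abs_nonneg _) fun l _ =>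
      (hb _ (mul_nonneg (ht.1 l) (sq_nonneg ξ))).1
  have h3 : ‖kk θ t i j s ξ‖ ≤ |f1 θ ((t i - s) * ξ ^ 2)| + |f0 θ ((t i - s) * ξ ^ 2)| := by
    unfold kk
    rw [Real.norm_eq_abs, abs_mul]
    refine (mul_le_of_le_one_right (abs_nonneg _) hR).trans ?_
    refine (abs_sub _ _).trans ?_
    rw [abs_mul, abs_mul]
    exact add_le_add (mul_le_of_le_one_right (abs_nonneg _) b1)
      (mul_le_of_le_one_right (abs_nonneg _) b2)
  have hpos : 0 < 1 + ‖ξ‖ ^ 2 := by positivity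
  have h2r : (2 : ℝ) ^ (r / 2) * 2 ^ (-r / 2) = 1 := by
    rw [← Real.rpow_add two_pos]
    have : r / 2 + -r / 2 = 0 := by ring
    rw [this, Real.rpow_zero]
  have hex : -r / 2 ≤ 0 := by linarith
  rw [Real.norm_eq_abs ξ, abs_of_pos hξ]
  rcases le_or_gt ξ 1 with h | h
  · have h4 : (2 : ℝ) ^ (-r / 2) ≤ (1 + ξ ^ 2) ^ (-r / 2) := by
      refine Real.rpow_le_rpow_of_nonpos (by positivity) ?_ hex
      nlinarith
    calc ‖kk θ t i j s ξ‖ ≤ 2 := h3.trans (by linarith)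
      _ ≤ (2 + C') := by linarith
      _ = 2 ^ (r / 2) * (2 + C') * 2 ^ (-r / 2) := by
          rw [mul_right_comm, h2r, one_mul]
      _ ≤ _ := mul_le_mul_of_nonneg_left h4 (by positivity)
  · have h4 : (2 * ξ ^ 2 : ℝ) ^ (-r / 2) ≤ (1 + ξ ^ 2) ^ (-r / 2) := by
      refine Real.rpow_le_rpow_of_nonpos (by positivity) ?_ hex
      nlinarith
    have hx2 : 0 < (t i - s) * ξ ^ 2 := mul_pos (by linarith [hs.2]) (by positivity)
    have h5 : ((t i - s) * ξ ^ 2) ^ (-r / 2) ≤ (t i / 2) ^ (-r / 2) * (ξ ^ 2) ^ (-r / 2) := by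
      rw [← Real.mul_rpow (by positivity) (by positivity)]
      refine Real.rpow_le_rpow_of_nonpos (by positivity) ?_ hex
      exact mul_le_mul_of_nonneg_right (by linarith [hs.2]) (by positivity)
    have h6 := hC _ hx2
    calc ‖kk θ t i j s ξ‖ ≤ C * ((t i - s) * ξ ^ 2) ^ (-r / 2) + C * ((t i - s) * ξ ^ 2) ^ (-r / 2) :=
          h3.trans (add_le_add h6.2 h6.1)
      _ = 2 * C * ((t i - s) * ξ ^ 2) ^ (-r / 2) := by ring
      _ ≤ 2 * C * ((t i / 2) ^ (-r / 2) * (ξ ^ 2) ^ (-r / 2)) :=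
          mul_le_mul_of_nonneg_left h5 (by positivity)
      _ = C' * (ξ ^ 2) ^ (-r / 2) := by rw [hC']; ring
      _ ≤ (2 + C') * (ξ ^ 2) ^ (-r / 2) := by
          refine mul_le_mul_of_nonneg_right (by linarith) (by positivity)
      _ = 2 ^ (r / 2) * (2 + C') * (2 * ξ ^ 2) ^ (-r / 2) := by
          rw [Real.mul_rpow two_pos.le (by positivity)]
          calc (2 + C') * (ξ ^ 2) ^ (-r / 2) = 1 * ((2 + C') * (ξ ^ 2) ^ (-r / 2)) := by ring
            _ = _ := by rw [← h2r]; ring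
      _ ≤ _ := mul_le_mul_of_nonneg_left h4 (by positivity)

theorem gDER : GDER := by
  intro hDec hD hB θ h1 h2 n
  have hθ : 0 < θ := by linarith
  obtain ⟨hd0, hd1, -, -⟩ := hD θ hθ h2
  have hb := hB θ hθ h2
  have hc0 : Continuous (f0 θ) := continuous_iff_continuousAt.2 fun x => (hd0 x).continuousAt
  have hc1 : Continuous (f1 θ) := continuous_iff_continuousAt.2 fun x => (hd1 x).continuousAt
  refine ⟨fun hn => exists_min hc0 hb hn, ?_⟩
  intro t ht hmin i j hij'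
  have hij : i ≠ j := fun h => by rw [h] at hij'; exact lt_irrefl _ hij'
  have hi : 0 < t i := lt_of_le_of_lt (ht.1 j) hij'
  obtain ⟨B, hBd⟩ := kk_bd h1 h2 hDec hb ht (j := j) hi
  have hr : 1 < 1 / θ - 1 := by
    have : 2 < 1 / θ := by rw [lt_div_iff₀ hθ]; linarith
    linarith
  have hint : Integrable (fun ξ : ℝ => B * (1 + ‖ξ‖ ^ 2) ^ (-(1 / θ - 1) / 2)) :=
    (integrable_rpow_neg_one_add_norm_sq (μ := (volume : Measure ℝ)) (by simpa using hr)).const_mul B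
  have hk0 : (fun ξ => (f1 θ (t i * ξ ^ 2) * f0 θ (t j * ξ ^ 2) -
    f0 θ (t i * ξ ^ 2) * f1 θ (t j * ξ ^ 2)) *
      ∏ l ∈ (Finset.univ.erase i).erase j, f0 θ (t l * ξ ^ 2)) = kk θ t i j 0 := by
    funext ξ
    unfold kk
    rw [sub_zero, add_zero]
  have hkc : Continuous (kk θ t i j 0) := by
    unfold kk
    refine Continuous.mul ?_ ?_
    · exact ((hc1.comp (by fun_prop)).mul (hc0.comp (by fun_prop))).sub
        ((hc0.comp (by fun_prop)).mul (hc1.comp (by fun_prop)))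
    · exact continuous_finsetProd _ fun l _ => hc0.comp (by fun_prop)
  rw [hk0]
  have hki : IntegrableOn (kk θ t i j 0) (Ioi 0) := by
    refine Integrable.mono' hint.integrableOn hkc.aestronglyMeasurable ?_
    rw [ae_restrict_iff' measurableSet_Ioi]
    exact Eventually.of_forall fun ξ hξ => hBd 0 ⟨le_rfl, by linarith⟩ ξ hξ
  refine ⟨hki, ?_⟩
  have hK : K θ t i j = ∫ ξ in Ioi (0 : ℝ), kk θ t i j 0 ξ := by
    unfold K
    rw [hk0]
  -- the difference quotients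
  set sm : ℕ → ℝ := fun m => t i / 2 / ((m : ℝ) + 1) with hsm
  have hsm0 : ∀ m, 0 < sm m := fun m => by simp only [hsm]; positivity
  have hsm1 : ∀ m, sm m ≤ t i / 2 := fun m => by
    simp only [hsm]
    refine div_le_self (by positivity) ?_
    have : (0:ℝ) ≤ m := Nat.cast_nonneg m
    linarith
  have hsml : Tendsto sm atTop (𝓝 0) := by
    have := (tendsto_one_div_add_atTop_nhds_zero_nat (𝕜 := ℝ)).const_mul (t i / 2)
    rw [mul_zero] at this
    refine this.congr fun m => ?_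
    simp only [hsm]
    ring
  have hsml' : Tendsto sm atTop (𝓝[≠] 0) :=
    tendsto_nhdsWithin_iff.2 ⟨hsml, Eventually.of_forall fun m => (hsm0 m).ne'⟩
  have hq : ∀ m, 0 ≤ ∫ ξ in Ioi (0 : ℝ),
      ((PP θ t ξ - PP θ (ts t i j (sm m)) ξ) / sm m) / ξ ^ 2 := by
    intro m
    have hS : Sx (ts t i j (sm m)) := ts_Sx ht hij (hsm0 m).le (by linarith [hsm1 m])
    have e1 : (fun ξ => ((PP θ t ξ - PP θ (ts t i j (sm m)) ξ) / sm m) / ξ ^ 2) =
        fun ξ => (sm m)⁻¹ * ((1 - PP θ (ts t i j (sm m)) ξ) / ξ ^ 2 - (1 - PP θ t ξ) / ξ ^ 2) := by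
      funext ξ
      field_simp
      ring
    rw [e1, integral_const_mul, integral_sub (G_int hc0 hb hS) (G_int hc0 hb ht)]
    have := hmin _ hS
    unfold G at this
    exact mul_nonneg (inv_nonneg.2 (hsm0 m).le) (by linarith)
  have hlim : Tendsto (fun m => ∫ ξ in Ioi (0 : ℝ),
      ((PP θ t ξ - PP θ (ts t i j (sm m)) ξ) / sm m) / ξ ^ 2) atTop
      (𝓝 (∫ ξ in Ioi (0 : ℝ), -(1 / 2) * kk θ t i j 0 ξ)) := by
    refine tendsto_integral_of_dominated_convergence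
      (fun ξ => B * (1 + ‖ξ‖ ^ 2) ^ (-(1 / θ - 1) / 2)) ?_ hint.integrableOn ?_ ?_
    · intro m
      refine ContinuousOn.aestronglyMeasurable ?_ measurableSet_Ioi
      refine ContinuousOn.div ?_ (by fun_prop) ?_
      · exact (((PP_cont hc0 t).sub (PP_cont hc0 _)).div_const _).continuousOn
      · intro ξ hξ
        exact pow_ne_zero 2 (ne_of_gt hξ)
    · intro m
      rw [ae_restrict_iff' measurableSet_Ioi]
      refine Eventually.of_forall fun ξ hξ => ?_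
      have hξ' : 0 < ξ := hξ
      have h3 := (convex_Icc (0:ℝ) (sm m)).norm_image_sub_le_of_norm_hasDerivWithin_le
        (f := fun s => PP θ (ts t i j s) ξ) (f' := fun s => ξ ^ 2 / 2 * kk θ t i j s ξ)
        (C := ξ ^ 2 / 2 * (B * (1 + ‖ξ‖ ^ 2) ^ (-(1 / θ - 1) / 2)))
        (fun s _ => (PP_deriv hd0 t hij s ξ).hasDerivWithinAt)
        (fun s hs => by
          rw [norm_mul, Real.norm_eq_abs (ξ ^ 2 / 2), abs_of_pos (by positivity)]
          exact mul_le_mul_of_nonneg_left (hBd s ⟨hs.1, hs.2.trans (hsm1 m)⟩ ξ hξ') (by positivity))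
        (x := sm m) (y := 0) ⟨(hsm0 m).le, le_rfl⟩ ⟨le_rfl, (hsm0 m).le⟩
      rw [ts_zero t hij, zero_sub, norm_neg, Real.norm_eq_abs (sm m), abs_of_pos (hsm0 m)] at h3
      rw [norm_div, norm_div, Real.norm_eq_abs (sm m), abs_of_pos (hsm0 m),
        Real.norm_eq_abs (ξ ^ 2), abs_of_pos (show 0 < ξ ^ 2 by positivity), div_div,
        div_le_iff₀ (mul_pos (hsm0 m) (by positivity))]
      refine h3.trans ?_
      have h4 : 0 ≤ B * (1 + ‖ξ‖ ^ 2) ^ (-(1 / θ - 1) / 2) :=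
        (norm_nonneg _).trans (hBd 0 ⟨le_rfl, by linarith⟩ ξ hξ')
      have h5 : 0 ≤ ξ ^ 2 * sm m := mul_nonneg (sq_nonneg _) (hsm0 m).le
      nlinarith [mul_nonneg h4 h5]
    · rw [ae_restrict_iff' measurableSet_Ioi]
      refine Eventually.of_forall fun ξ hξ => ?_
      have hξ' : 0 < ξ := hξ
      have h3 := (hasDerivAt_iff_tendsto_slope.1 (PP_deriv hd0 t hij 0 ξ)).comp hsml'
      have h4 := (h3.neg).div_const (ξ ^ 2)
      have e2 : -(ξ ^ 2 / 2 * kk θ t i j 0 ξ) / ξ ^ 2 = -(1 / 2) * kk θ t i j 0 ξ := by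
        field_simp
      rw [e2] at h4
      refine h4.congr fun m => ?_
      simp only [Function.comp, slope_def_field, ts_zero t hij, sub_zero]
      ring
  have h6 := ge_of_tendsto' hlim hq
  rw [integral_const_mul, ← hK] at h6
  linarith

end Pool.Agent.Helper42.PT
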